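import Pool.Agent.Q279.CD.Fam

/-!
# Parity of the rank statistics on partitions into two part sizes (MP_cd2397_nt, Q1)
-/

set_option autoImplicit false

namespace Pool.Agent.Results.MP_cd2397_nt.RankParity

open Finset

/-- `𝒫₂(N)`: the partitions of `N` into exactly two part sizes in frequency notation;
`(l₁, l₂, m₁, m₂)` stands for `(l₁^{m₁} l₂^{m₂})`, with `l₁ > l₂ ≥ 1`, `m₁, m₂ ≥ 1` and
`l₁ m₁ + l₂ m₂ = N` (all four numbers are then at most `N`). -/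
def P2 (N : ℕ) : Finset (ℕ × ℕ × ℕ × ℕ) :=
  (range (N + 1) ×ˢ range (N + 1) ×ˢ range (N + 1) ×ˢ range (N + 1)).filter
    fun (l₁, l₂, m₁, m₂) => l₂ < l₁ ∧ 1 ≤ l₂ ∧ 1 ≤ m₁ ∧ 1 ≤ m₂ ∧ l₁ * m₁ + l₂ * m₂ = N

/-- Dyson's rank `l₁ - m₁ - m₂`. -/
def rk : ℕ × ℕ × ℕ × ℕ → ℤ
  | (l₁, _, m₁, m₂) => l₁ - m₁ - m₂

/-- `rk₂ = l₁ + l₂ - 2 m₁ - m₂`. -/
def rk₂ : ℕ × ℕ × ℕ × ℕ → ℤ
  | (l₁, l₂, m₁, m₂) => l₁ + l₂ - 2 * m₁ - m₂

/-- `N_s^ε(N)`: the number of `λ ∈ 𝒫₂(N)` with `s(λ) ≡ ε (mod 2)`. -/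
def count (s : ℕ × ℕ × ℕ × ℕ → ℤ) (ε : ℤ) (N : ℕ) : ℕ :=
  ((P2 N).filter fun q => s q ≡ ε [ZMOD 2]).card

/-- The set `S`. -/
def S : Finset (ℕ × ℕ) := {(16, 14), (36, 30), (72, 42), (196, 70), (252, 114)}

lemma mem_P2 {N x y a b : ℕ} :
    (x, y, a, b) ∈ P2 N ↔ (x, y, a, b) ∈ Q279.CD.Q N ∧ y < x := by
  rw [Q279.CD.mem_Q]
  unfold P2
  simp only [mem_filter, mem_product, mem_range]
  constructor
  · rintro ⟨_, h1, h2, h3, h4, h5⟩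
    exact ⟨⟨by omega, h2, h3, h4, h5⟩, h1⟩
  · rintro ⟨⟨hx, hy, ha, hb, h⟩, h1⟩
    refine ⟨⟨?_, ?_, ?_, ?_⟩, h1, hy, ha, hb, h⟩ <;> nlinarith

lemma count_one (s : ℕ × ℕ × ℕ × ℕ → ℤ) (P : ℕ → ℕ → ℕ → ℕ → Prop)
    (h : ∀ x y a b, s (x, y, a, b) ≡ 1 [ZMOD 2] ↔ P x y a b) (N : ℕ) :
    count s 1 N = Q279.CD.cnt N (fun x y a b => y < x ∧ P x y a b) := by
  classical
  unfold count Q279.CD.cnt
  congr 1
  ext ⟨x, y, a, b⟩
  simp only [mem_filter, mem_P2, h, and_assoc]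

lemma count_add (s : ℕ × ℕ × ℕ × ℕ → ℤ) (N : ℕ) :
    count s 0 N + count s 1 N = Q279.CD.nu N := by
  classical
  have h1 : Q279.CD.nu N = (P2 N).card := by
    unfold Q279.CD.nu Q279.CD.cnt
    congr 1
    ext ⟨x, y, a, b⟩
    simp only [mem_filter, mem_P2]
  rw [h1, ← card_filter_add_card_filter_not (s := P2 N) (fun q => s q ≡ 0 [ZMOD 2])]
  unfold count
  congr 2
  refine filter_congr fun q _ => ?_
  unfold Int.ModEq
  omega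

lemma assemble {s : ℕ × ℕ × ℕ × ℕ → ℤ} {N : ℕ} (h1 : Q279.CD.nu N % 4 = 0)
    (h2 : count s 1 N % 4 = 0) : 4 ∣ count s 0 N ∧ 4 ∣ count s 1 N := by
  have h3 := count_add s N
  omega

lemma one_rk₂ (N : ℕ) : count rk₂ 1 N =
    Q279.CD.cnt N (fun x y _ b => y < x ∧ (x + y + b) % 2 = 1) :=
  count_one rk₂ (fun x y _ b => (x + y + b) % 2 = 1)
    (fun x y a b => by simp only [rk₂, Int.ModEq]; omega) N

lemma one_rk (N : ℕ) : count rk 1 N =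
    Q279.CD.cnt N (fun x y a b => y < x ∧ (x + a + b) % 2 = 1) :=
  count_one rk (fun x _ a b => (x + a + b) % 2 = 1)
    (fun x y a b => by simp only [rk, Int.ModEq]; omega) N

lemma both3 {N m : ℕ} (hN : N = 2 * (3 * m)) (hm : ¬ 3 ∣ m) (h2 : m % 2 = 1)
    (hsq : ∀ d, d * d ≠ m) : (4 ∣ count rk₂ 0 N ∧ 4 ∣ count rk₂ 1 N) ∧
      4 ∣ count rk 0 N ∧ 4 ∣ count rk 1 N := by
  subst hN
  obtain ⟨h3, h4, h5⟩ := Q279.CD.fam3 hm h2 hsq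
  rw [← one_rk₂] at h4
  rw [← one_rk] at h5
  exact ⟨assemble h3 h4, assemble h3 h5⟩

lemma both7 {N m : ℕ} (hN : N = 2 * (7 * m)) (hm : ¬ 7 ∣ m) (h2 : m % 2 = 1)
    (hsq : ∀ d, d * d ≠ m) : (4 ∣ count rk₂ 0 N ∧ 4 ∣ count rk₂ 1 N) ∧
      4 ∣ count rk 0 N ∧ 4 ∣ count rk 1 N := by
  subst hN
  obtain ⟨h3, h4, h5⟩ := Q279.CD.fam7 hm h2 hsq
  rw [← one_rk₂] at h4
  rw [← one_rk] at h5
  exact ⟨assemble h3 h4, assemble h3 h5⟩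

lemma b36 (n : ℕ) : (4 ∣ count rk₂ 0 (36 * n + 30) ∧ 4 ∣ count rk₂ 1 (36 * n + 30)) ∧
      4 ∣ count rk 0 (36 * n + 30) ∧ 4 ∣ count rk 1 (36 * n + 30) := by
  refine both3 (m := 6 * n + 5) (by ring) (by omega) (by omega) fun d hd => ?_
  have := Nat.mul_mod d d 3
  have h3 : d % 3 = 0 ∨ d % 3 = 1 ∨ d % 3 = 2 := by omega
  rcases h3 with h3 | h3 | h3 <;> rw [h3] at this <;> norm_num at this <;> omega

lemma b72 (n : ℕ) : (4 ∣ count rk₂ 0 (72 * n + 42) ∧ 4 ∣ count rk₂ 1 (72 * n + 42)) ∧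
      4 ∣ count rk 0 (72 * n + 42) ∧ 4 ∣ count rk 1 (72 * n + 42) := by
  refine both3 (m := 12 * n + 7) (by ring) (by omega) (by omega) fun d hd => ?_
  have := Nat.mul_mod d d 4
  have h3 : d % 4 = 0 ∨ d % 4 = 1 ∨ d % 4 = 2 ∨ d % 4 = 3 := by omega
  rcases h3 with h3 | h3 | h3 | h3 <;> rw [h3] at this <;> norm_num at this <;> omega

lemma b252 (n : ℕ) : (4 ∣ count rk₂ 0 (252 * n + 114) ∧ 4 ∣ count rk₂ 1 (252 * n + 114)) ∧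
      4 ∣ count rk 0 (252 * n + 114) ∧ 4 ∣ count rk 1 (252 * n + 114) := by
  refine both3 (m := 42 * n + 19) (by ring) (by omega) (by omega) fun d hd => ?_
  have := Nat.mul_mod d d 7
  have h3 : d % 7 = 0 ∨ d % 7 = 1 ∨ d % 7 = 2 ∨ d % 7 = 3 ∨ d % 7 = 4 ∨ d % 7 = 5 ∨
    d % 7 = 6 := by omega
  rcases h3 with h3 | h3 | h3 | h3 | h3 | h3 | h3 <;> rw [h3] at this <;>
    norm_num at this <;> omega

lemma b196 (n : ℕ) : (4 ∣ count rk₂ 0 (196 * n + 70) ∧ 4 ∣ count rk₂ 1 (196 * n + 70)) ∧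
      4 ∣ count rk 0 (196 * n + 70) ∧ 4 ∣ count rk 1 (196 * n + 70) := by
  refine both7 (m := 14 * n + 5) (by ring) (by omega) (by omega) fun d hd => ?_
  have := Nat.mul_mod d d 7
  have h3 : d % 7 = 0 ∨ d % 7 = 1 ∨ d % 7 = 2 ∨ d % 7 = 3 ∨ d % 7 = 4 ∨ d % 7 = 5 ∨
    d % 7 = 6 := by omega
  rcases h3 with h3 | h3 | h3 | h3 | h3 | h3 | h3 <;> rw [h3] at this <;>
    norm_num at this <;> omega

lemma b16 (n : ℕ) : 4 ∣ count rk₂ 0 (16 * n + 14) ∧ 4 ∣ count rk₂ 1 (16 * n + 14) := by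
  obtain ⟨h3, h4⟩ := Q279.CD.fam8 (n := 8 * n + 7) (by omega)
  rw [← one_rk₂, show 2 * (8 * n + 7) = 16 * n + 14 by ring] at h4
  rw [show 2 * (8 * n + 7) = 16 * n + 14 by ring] at h3
  exact assemble h3 h4

/-- Q1 is answered affirmatively.
(a) For every `(A, B) ∈ S` and `n ≥ 0`, both `N_{rk₂}^0(An + B)` and `N_{rk₂}^1(An + B)` are
divisible by `4`;
(b) for every `(A, B) ∈ S \ {(16, 14)}` and `n ≥ 0`, both `N_{rk}^0(An + B)` and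
`N_{rk}^1(An + B)` are divisible by `4`. -/
theorem result :
    (∀ s ∈ S, ∀ n : ℕ, 4 ∣ count rk₂ 0 (s.1 * n + s.2) ∧ 4 ∣ count rk₂ 1 (s.1 * n + s.2)) ∧
    (∀ s ∈ S \ {(16, 14)}, ∀ n : ℕ,
      4 ∣ count rk 0 (s.1 * n + s.2) ∧ 4 ∣ count rk 1 (s.1 * n + s.2)) := by
  constructor
  · intro s hs n
    simp only [S, mem_insert, mem_singleton] at hs
    rcases hs with rfl | rfl | rfl | rfl | rfl
    · exact b16 n
    · exact (b36 n).1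
    · exact (b72 n).1
    · exact (b196 n).1
    · exact (b252 n).1
  · intro s hs n
    simp only [S, mem_sdiff, mem_insert, mem_singleton] at hs
    obtain ⟨hs, h0⟩ := hs
    rcases hs with rfl | rfl | rfl | rfl | rfl
    · exact absurd rfl h0
    · exact (b36 n).2
    · exact (b72 n).2
    · exact (b196 n).2
    · exact (b252 n).2

end Pool.Agent.Results.MP_cd2397_nt.RankParity
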